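import Pool.Agent.T6helper6.BT.Final
import Pool.Agent.K6.H41.BT.Logic

/-!
# A strong theon which differs from every Borel strong theon on a set of positive measure

Question Q1 has a negative answer: there are a language with two predicate symbols `L`, `Q` (of
arities 6 and 5), a universal canonical theory `T` and a strong `T`-on `𝓝` with Lebesgue measurable
components such that no Borel strong `T`-on `𝓝'` satisfies `λ(𝓝_P △ 𝓝'_P) = 0` for all `P`.

Construction. Identify `[0,1]` with the additive group `G` of the 3-adic integers by a Borel
isomorphism preserving the measure. Call `e = y₀ - x₀ - g₀` the error of the triple `x₀, g₀, y₀`.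
* `L(x₀, g₀, y₀, x, g, y)`: the error of `x, g, y` is at most the error of `x₀, g₀, y₀`
  (in the 3-adic norm).
* `Q(x₀, g₀, y₀, x, y)`: the residue of `y - x` modulo `3 ^ n` is in the lower half
  `(0, 3 ^ n / 2)`, where `n` is the valuation of the error `e` of `x₀, g₀, y₀`. If `e = 0` the value
  at `n = ∞` is defined by a nonprincipal ultrafilter on the natural numbers.
`T` is the set of the universal sentences which hold in all the finite pieces of this structure.

In a Borel strong `T`-on which agrees with `𝓝` almost everywhere, take a triple `x₀, g₀, y₀`
with `y₀ = x₀ + g₀` whose error is larger than the errors of most of the triples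
`x, g, x + g`. Then `Q(x₀, g₀, y₀, ·, ·)` is a measurable tournament (without ties, since the error is
below every positive scale) in which in- and out-neighbourhoods contain no cyclic triangles, and
it is invariant under most partial translations. Counting the cyclic triangles in a small
ball gives a contradiction.
-/

set_option autoImplicit false

open FirstOrder MeasureTheory
open Pool.Agent.TH751.Theon (EV)
open Pool.Agent.T6helper6.BT

namespace Pool.Agent.Results.MP_351e8f_co.NoBorelVersion

theorem result : ∃ (L : FirstOrder.Language.{0, 0}) (T : L.Theory) (N : EStr L),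
    L.IsRelational ∧ Finite (Σ k, L.Relations k) ∧ IsEmpty (L.Relations 0) ∧
    T.IsUniversal ∧ CanonicalTheory T ∧
    (∀ (k : ℕ) (P : L.Relations k), NullMeasurableSet (N k P) (volume : Measure (EV (Fin k)))) ∧
    StrongOn T N ∧
    ∀ N' : EStr L, (∀ (k : ℕ) (P : L.Relations k), MeasurableSet (N' k P)) → StrongOn T N' →
      ¬ ∀ (k : ℕ) (P : L.Relations k),
        (volume : Measure (EV (Fin k))) (symmDiff (N k P) (N' k P)) = 0 := by
  obtain ⟨e, he⟩ := Pool.Agent.Helper212.Sq.exists_mp_equiv mu
  refine ⟨LQ, theoryOf (Nst e), Nst e, inferInstance, inferInstance, inferInstance,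
    Pool.Agent.K6.H41.BT.Logic.isUniversal_theoryOf _,
    Pool.Agent.K6.H41.BT.Logic.canonicalTheory_theoryOf _, null_Nst he,
    Pool.Agent.K6.H41.BT.Logic.strongOn_theoryOf _, fun N' hm hN' h0 => ?_⟩
  exact no_borel he N' hm (fun m x hx => Pool.Agent.K6.H41.BT.Logic.diagram hN' x hx) h0

end Pool.Agent.Results.MP_351e8f_co.NoBorelVersion
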